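import Pool.Agent.Y133.Chow.Defs

/-!
# Varieties with simple transcendental motive: definitions
-/

open CategoryTheory AlgebraicGeometry

universe u v w

namespace Pool.Agent.Y133.K3

open Pool.Agent.H914 Pool.Agent.H914.VarClass Pool.Agent.H914.VarClass.Obj
  Pool.Agent.H914.WeilCohomology Pool.Agent.W492.BB Pool.Agent.Y133.Chow

section Alg

variable {A₁ A₂ D E : Type*} [Ring A₁] [Algebra ℚ A₁] [Ring A₂] [Algebra ℚ A₂] [Ring D]
  [Algebra ℚ D] [Ring E] [Algebra ℚ E]

/-- The element `p x * q y`. -/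
def mulVia (p : A₁ →ₐ[ℚ] D) (q : A₂ →ₐ[ℚ] D) (x : A₁) (y : A₂) : D := p x * q y

/-- The element `s (q y * p x)`. -/
def compVia (p : A₁ →ₐ[ℚ] D) (q : A₂ →ₐ[ℚ] D) (s : D →ₗ[ℚ] E) (x : A₁) (y : A₂) : E :=
  s (q y * p x)

/-- The value of `s` at `1`. -/
def atOne (s : D →ₗ[ℚ] E) : E := s 1

end Alg

variable {k : Type u} [Field k] {𝒱 : VarClass k} {ops : CycleOps 𝒱}
  {W : WeilCohomology.{u, v} ops} {C : TheoryData.{u, w, 0} 𝒱 ℚ}

/-- The external product `a × b`. -/
noncomputable def cross (C : TheoryData.{u, w, 0} 𝒱 ℚ) {X Y : 𝒱.Obj} (a : C.A X) (b : C.A Y) :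
    C.A (X.prod Y) := mulVia (C.pull (fst X Y)) (C.pull (snd X Y)) a b

/-- The composition of correspondences: the push-forward to `X × Z` of the product of the
pull-backs to `X × Y × Z`. -/
noncomputable def comp3 (C : TheoryData.{u, w, 0} 𝒱 ℚ) {X Y Z : 𝒱.Obj} (Γ : C.A (X.prod Y))
    (Δ : C.A (Y.prod Z)) : C.A (X.prod Z) :=
  compVia (C.pull (fst (X.prod Y) Z)) (C.pull (prodMap (snd X Y) (𝟙 Z)))
    (C.push (prodMap (fst X Y) (𝟙 Z))) Γ Δ

/-- The class of the diagonal. -/
noncomputable def dia (C : TheoryData.{u, w, 0} 𝒱 ℚ) (X : 𝒱.Obj) : C.A (X.prod X) :=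
  atOne (C.push (Obj.lift (𝟙 X) (𝟙 X)))

/-- The self-correspondence `Γ` of `X` is numerically equivalent to a sum of external products. -/
def Decomposable (c : ClassMap W C) {X : 𝒱.Obj} (Γ : C.A (X.prod X)) : Prop :=
  ∃ (n : ℕ) (a b : Fin n → C.A X), NumTrivial c (X.prod X) (Γ - ∑ i, cross C (a i) (b i))

/-- The transcendental motive of `X` is simple: every self-correspondence of `X` is numerically
equivalent to a sum of external products, or it is invertible up to such sums. -/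
def SimpleTranscendental (c : ClassMap W C) (X : 𝒱.Obj) : Prop :=
  ∀ Γ : C.A (X.prod X), Decomposable c Γ ∨
    ∃ Δ : C.A (X.prod X), Decomposable c (comp3 C Γ Δ - dia C X)

/-- All numerically trivial elements of `C(X)` are zero. -/
def NoNumTrivial (c : ClassMap W C) (X : 𝒱.Obj) : Prop := ∀ x, NumTrivial c X x → x = 0

/-- The total Betti number of `X`. -/
noncomputable def betti (W : WeilCohomology.{u, v} ops) (X : 𝒱.Obj) : ℕ :=
  Module.finrank W.K (W.H X)

end Pool.Agent.Y133.K3
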