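import Pool.Agent.Y133.K3.Gap

/-!
# Varieties with simple transcendental motive: the gap for the index
-/

set_option linter.unusedSectionVars false

open CategoryTheory AlgebraicGeometry TensorProduct Filter Topology

open scoped ENNReal

universe u v w

namespace Pool.Agent.Y133.K3

open Pool.Agent.H914 Pool.Agent.H914.VarClass Pool.Agent.H914.VarClass.Obj
  Pool.Agent.H914.WeilCohomology Pool.Agent.W492.BB Pool.Agent.Y129 Pool.Agent.TH133
  Pool.Agent.H281R3.HT Pool.Agent.W536.RR Pool.Agent.Y133.Chow

variable {k : Type u} [Field k] {𝒱 : VarClass k} {ops : CycleOps 𝒱}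
  {W : WeilCohomology.{u, v} ops} {C : TheoryData.{u, w, 0} 𝒱 ℚ} [hC : IsChowProj C]
  (c : ClassMap W C) {X Y Z : 𝒱.Obj}

include c in
/-- The growth of the numerical ranks. -/
lemma tendsto_quot_next [Nontrivial (W.H X)] [∀ n, Module.Finite ℚ (C.A (pw X n))]
    (hb : ¬ Tendsto (fun n => (Module.finrank ℚ (C.A (pw X n)) : ℝ) / numRank W (pw X n)) atTop
      atTop) :
    Tendsto (fun n => (numRank W (pw X (n + 2)) : ℝ) / numRank W (pw X (n + 1))) atTop
      (𝓝 (betti W X : ℝ)) := by
  obtain ⟨z, hz⟩ := exists_point c (X := X)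
  rcases full_or_infinite (c.cl_mem_algSpan z) hz with hF | hF
  · have hcl : IsAlgClosed (baseW W (AlgebraicClosure W.K)).K :=
      (inferInstance : IsAlgClosed (AlgebraicClosure W.K))
    have hnt : Nontrivial ((baseW W (AlgebraicClosure W.K)).H X) := nontrivial_base _
    have hF' : GoodSet (baseW W (AlgebraicClosure W.K)) (powSet X) := hF
    have h := Pool.Agent.Y129.isPowers (X := X) hF' (show X ∈ powSet X from pw_mem_powSet X 0)
    have h1 := h.tendsto_cmp 0
    have h2 := h.tendsto_cmp 1
    have h3 := h2.div h1 (by simp)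
    have hbetti : Module.finrank (baseW W (AlgebraicClosure W.K)).K
        ((baseW W (AlgebraicClosure W.K)).H X) = betti W X := by
      change Module.finrank (AlgebraicClosure W.K) (AlgebraicClosure W.K ⊗[W.K] W.H X) = _
      rw [Module.finrank_baseChange]
      rfl
    have h0 : ∀ n, numRank (baseW W (AlgebraicClosure W.K)) (pw X n) = numRank W (pw X n) :=
      fun n => numRank_base _
    rw [hbetti, pow_zero, pow_one, div_one] at h3
    refine h3.congr fun n => ?_
    have hpos : (0 : ℝ) < cmp (fun n => numRank (baseW W (AlgebraicClosure W.K)) (pw X n))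
        (Module.finrank (baseW W (AlgebraicClosure W.K)).K
          ((baseW W (AlgebraicClosure W.K)).H X)) n := by
      exact_mod_cast h.cmp_pos n
    rw [hbetti] at hpos
    simp only [Pi.div_apply]
    rw [div_div_div_cancel_right₀ hpos.ne', h0, h0]
  · exfalso
    apply hb
    refine tendsto_atTop_mono (fun n => ?_) (hF (fun n => algSpan W (pw X n)) fun n => le_rfl)
    apply div_le_div_of_nonneg_right _ (Nat.cast_nonneg _)
    exact_mod_cast finrank_algSpan_le c

/-- The index in terms of real numbers. -/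
lemma tendsto_real [Nontrivial (W.H X)] [∀ n, Module.Finite ℚ (C.A (pw X n))] {N : ℕ}
    (hN : HasChowIndex ops C X N) :
    Tendsto (fun n => (Module.finrank ℚ (C.A (pw X n)) : ℝ) / numRank W (pw X n)) atTop
      (𝓝 (N : ℝ)) := by
  rw [HasChowIndex, ENat.toENNReal_coe] at hN
  have h1 := (ENNReal.tendsto_toReal (ENNReal.natCast_ne_top N)).comp hN
  rw [ENNReal.toReal_natCast] at h1
  refine h1.congr fun n => ?_
  rw [Function.comp_apply, chowDim_finite, cycRank_eq W, ENat.toENNReal_coe, ENNReal.toReal_div,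
    ENNReal.toReal_natCast, ENNReal.toReal_natCast]

/-- The dimension of the Chow ring. -/
lemma finrank_eq_add [Nontrivial (W.H Y)] [Module.Finite ℚ (C.A Y)] :
    Module.finrank ℚ (C.A Y) = numRank W Y + Module.finrank ℚ (numSub c Y) := by
  rw [numRank_eq c (X := Y)]
  exact (Submodule.finrank_quotient_add_finrank (numSub c Y)).symm

/-- **The gap**: if the transcendental motive of `X` is simple and there is a nonzero numerically
trivial element on `X` then the index is at least `b(X) - rank Num(X) + 1`. -/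
theorem gap [Nontrivial (W.H X)] (hs : SimpleTranscendental c X) (hx : ¬ NoNumTrivial c X)
    {N : ℕ∞} (hN : HasChowIndex ops C X N) :
    (betti W X : ℕ∞) + 1 ≤ N + Half.cycRank ops X := by
  by_cases hN' : N = ⊤
  · rw [hN', top_add]
    exact le_top
  obtain ⟨hfin, hnil⟩ := finite_of_index c hN hN'
  obtain ⟨N, rfl⟩ := ENat.ne_top_iff_exists.1 hN'
  rw [NoNumTrivial] at hx
  push Not at hx
  obtain ⟨x, hx, hx0⟩ := hx
  have h1 := tendsto_real (W := W) hN
  have h2 := tendsto_quot_next c (X := X) (fun h => not_tendsto_nhds_of_tendsto_atTop h _ h1)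
  have h3 : ∀ n, numRank W (pw X (n + 1)) ≤ numRank W X * numRank W (pw X n) +
      Module.finrank ℚ (numSub c (pw X n)) := by
    intro n
    have hY : Nontrivial (W.H (pw X n)) := nontrivial_pw n
    have hXY : Nontrivial (W.H (X.prod (pw X n))) := nontrivial_pw (n + 1)
    exact numRank_le c (Y := pw X n) hs (fun f hf => hnil 0 f hf) hx hx0
  have h4 : ∀ n, (numRank W (pw X (n + 2)) : ℝ) / numRank W (pw X (n + 1)) ≤
      (numRank W X - 1 : ℝ) +
        (Module.finrank ℚ (C.A (pw X (n + 1))) : ℝ) / numRank W (pw X (n + 1)) := by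
    intro n
    have hpos : (0 : ℝ) < numRank W (pw X (n + 1)) := by exact_mod_cast numRank_pos c (n + 1)
    have hY : Nontrivial (W.H (pw X (n + 1))) := nontrivial_pw (n + 1)
    rw [div_le_iff₀ hpos, add_mul, div_mul_cancel₀ _ hpos.ne', finrank_eq_add c]
    have h5 := h3 (n + 1)
    have h6 : (numRank W (pw X (n + 2)) : ℝ) ≤ numRank W X * numRank W (pw X (n + 1)) +
      Module.finrank ℚ (numSub c (pw X (n + 1))) := by exact_mod_cast h5
    push_cast
    linarith
  have h5 := le_of_tendsto_of_tendsto' h2 (tendsto_const_nhds.add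
    (h1.comp (tendsto_add_atTop_nat 1))) h4
  rw [cycRank_eq W]
  have h6 : (betti W X : ℝ) + 1 ≤ N + numRank W X := by linarith
  exact_mod_cast h6

/-- **The index law with the gap.** -/
theorem gap_law [Nontrivial (W.H X)] (hs : SimpleTranscendental c X) :
    ∃ N : ℕ∞, 1 ≤ N ∧ HasChowIndex ops C X N ∧ (N = 1 ↔ NumTrivialZero c X) ∧
      (NoNumTrivial c X ∨ (betti W X : ℕ∞) + 1 ≤ N + Half.cycRank ops X) := by
  obtain ⟨N, h1, h2, h3, -⟩ := index_law c (X := X)
  refine ⟨N, h1, h2, h3, ?_⟩
  by_cases hx : NoNumTrivial c X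
  · exact Or.inl hx
  · exact Or.inr (gap c hs hx h2)

end Pool.Agent.Y133.K3
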