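import Pool.Agent.Y133.Chow.Semi
import Pool.Agent.Y133.K3.Defs

/-!
# Varieties with simple transcendental motive: the inequality
-/

set_option linter.unusedSectionVars false

open CategoryTheory AlgebraicGeometry TensorProduct Filter Topology

open scoped ENNReal

universe u v w

namespace Pool.Agent.Y133.K3

open Pool.Agent.H914 Pool.Agent.H914.VarClass Pool.Agent.H914.VarClass.Obj
  Pool.Agent.H914.WeilCohomology Pool.Agent.W492.BB Pool.Agent.Y129 Pool.Agent.TH133
  Pool.Agent.H281R3.HT Pool.Agent.W536.RR Pool.Agent.Y133.Chow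
open Pool.Agent.W550.Corr (dg comp_dg dg_comp act_dg comp_eq_extR comp_add comp_sub comp_zero add_comp
  sub_comp zero_comp comp_sum sum_comp compL_apply)

/-! ### Linear algebra -/

/-- Dual families for a bilinear form with radical of finite codimension. -/
lemma exists_dual {A : Type*} [AddCommGroup A] [Module ℚ A] (B : A →ₗ[ℚ] A →ₗ[ℚ] ℚ)
    (R : Submodule ℚ A) (hR : ∀ x, x ∈ R ↔ ∀ y, B x y = 0) (hR' : ∀ x ∈ R, ∀ y, B y x = 0)
    [Module.Finite ℚ (A ⧸ R)] :
    ∃ z w : Fin (Module.finrank ℚ (A ⧸ R)) → A, ∀ a, a - ∑ i, B a (z i) • w i ∈ R := by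
  obtain ⟨S, hS⟩ := exists_isCompl R
  have e := Submodule.quotientEquivOfIsCompl R S hS
  have hfin : Module.Finite ℚ S := Module.Finite.equiv e
  have hrank : Module.finrank ℚ S = Module.finrank ℚ (A ⧸ R) := e.finrank_eq.symm
  set B' : LinearMap.BilinForm ℚ S := B.domRestrict₁₂ S S with hB'
  have hB'' : ∀ s t : S, B' s t = B s t := fun s t => rfl
  have hnd : B'.Nondegenerate := by
    have h1 : ∀ m : S, (∀ n : S, B' m n = 0) → m = 0 := by
      intro s hs
      have h1 : (s : A) ∈ R := by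
        rw [hR]
        intro y
        obtain ⟨r, hr, t, ht, rfl⟩ := Submodule.mem_sup.1
          (show y ∈ R ⊔ S by rw [hS.sup_eq_top]; trivial)
        rw [map_add, hR' r hr, zero_add]
        exact hs ⟨t, ht⟩
      have h2 := Submodule.disjoint_def.1 hS.disjoint _ h1 s.2
      exact Subtype.ext h2
    rw [LinearMap.BilinForm.nondegenerate_iff_ker_eq_bot, LinearMap.ker_eq_bot']
    intro m hm
    exact h1 m fun n => by rw [hm]; rfl
  let b : Module.Basis (Fin (Module.finrank ℚ (A ⧸ R))) ℚ S :=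
    Module.finBasisOfFinrankEq ℚ S hrank
  refine ⟨fun i => b i, fun i => (B'.dualBasis hnd b i : S), fun a => ?_⟩
  obtain ⟨r, hr, s, hs, rfl⟩ := Submodule.mem_sup.1
    (show a ∈ R ⊔ S by rw [hS.sup_eq_top]; trivial)
  have h1 := (B'.dualBasis hnd b).sum_repr ⟨s, hs⟩
  have h2 : ∑ i, B (r + s) (b i : A) • ((B'.dualBasis hnd b i : S) : A) = s := by
    have h3 := congrArg (Submodule.subtype S) h1
    rw [map_sum] at h3
    refine Eq.trans ?_ h3
    apply Finset.sum_congr rfl
    intro i _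
    rw [map_smul, LinearMap.BilinForm.dualBasis_repr_apply, map_add, LinearMap.add_apply,
      (hR r).1 hr, zero_add]
    rfl
  rw [h2, add_sub_cancel_right]
  exact hr

/-! ### External products -/

variable {k : Type u} [Field k] {𝒱 : VarClass k} {ops : CycleOps 𝒱}
  {W : WeilCohomology.{u, v} ops} {C : TheoryData.{u, w, 0} 𝒱 ℚ} [hC : IsChowProj C]
  (c : ClassMap W C) {X Y Z : 𝒱.Obj}

lemma comp_ext' (a : C.A X) (b : C.A Y) (Γ : C.A (Y.prod Z)) :
    C.comp (C.ext a b) Γ = C.ext a (C.act Γ b) := by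
  rw [comp_eq_extR C, C.extR_ext _ (fun c => chow_mul_comm _ _)]

/-- The degree in both projections. -/
lemma exists_degF [Nontrivial (W.H X)] : ∃ D : C.A X →ₗ[ℚ] ℚ, (∀ x, W.tr X (c.cl X x) = (D x : W.K)) ∧
    ∀ (Y : 𝒱.Obj) (x : C.A X), C.push (snd X Y) (C.pull (fst X Y) x) = D x • (1 : C.A Y) := by
  obtain ⟨D, hD⟩ := c.exists_degL (X := X)
  refine ⟨D, hD, fun Y x => ?_⟩
  have hinj : Function.Injective ((↑) : ℚ → W.K) := Rat.cast_injective
  refine gr_ind C (P := fun x => C.push (snd X Y) (C.pull (fst X Y) x) = D x • (1 : C.A Y)) ?_ ?_ x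
  · intro p x hx
    rcases lt_trichotomy p X.dim with hp | hp | hp
    · have h1 : D x = 0 := by
        apply hinj
        rw [← hD, W.tr_eq_zero (c.cl_mem hx) (by omega)]
        simp
      have h2 := C.push_mem (snd X Y) (C.pull_mem (fst X Y) hx)
      rw [C.gr_neg Y _ (by rw [dim_prod]; push_cast; omega)] at h2
      rw [(Submodule.mem_bot _).1 h2, h1, zero_smul]
    · subst hp
      obtain ⟨q, hq⟩ := hC.degree X x hx
      have h0 : D x = q := by
        have h1 : C.push (snd X X) (C.pull (fst X X) x) = q • (1 : C.A X) := (hq X).1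
        have h2 := congrArg (c.cl X) h1
        rw [c.cl_push, c.cl_pull, W.push_snd', c.cl_smul, map_one] at h2
        have h3 : (W.tr X (c.cl X x) - (q : W.K)) • (1 : W.H X) = 0 := by
          rw [sub_smul, h2, sub_self]
        rcases smul_eq_zero.1 h3 with h4 | h4
        · rw [hD] at h4
          exact hinj (sub_eq_zero.1 h4)
        · exact absurd h4 one_ne_zero
      rw [h0]
      exact (hq Y).1
    · have h2 : x = 0 := hC.gr_top X p x hx (by exact_mod_cast hp)
      subst h2
      rw [map_zero, map_zero, map_zero, zero_smul]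
  · intro x y hx hy
    rw [map_add, map_add, hx, hy, map_add, add_smul]

lemma act_ext' {D : C.A X →ₗ[ℚ] ℚ}
    (hD : ∀ (Y : 𝒱.Obj) (x : C.A X), C.push (snd X Y) (C.pull (fst X Y) x) = D x • (1 : C.A Y))
    (a : C.A X) (b : C.A Y) (x : C.A X) : C.act (C.ext a b) x = D (x * a) • b := by
  have e1 : C.act (C.ext a b) x = C.push (snd X Y) (C.pull (fst X Y) (x * a)) * b := by
    rw [TheoryData.act_apply, ← C.proj_right, map_mul (C.pull (fst X Y)), TheoryData.ext]
    congr 1
    rw [chow_mul_comm, mul_assoc]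
  rw [e1, hD, smul_mul_assoc, one_mul]

/-- A correspondence all of whose compositions are numerically trivial is numerically trivial. -/
lemma numSub_of_comp {Γ : C.A (X.prod Y)}
    (h : ∀ Ψ : C.A (Y.prod X), C.comp Γ Ψ ∈ numSub c (X.prod X)) : Γ ∈ numSub c (X.prod Y) := by
  intro Θ
  set Ψ : C.A (Y.prod X) := C.pull (swap Y X) Θ with hΨ
  have e1 : W.map (swap X Y) (c.cl _ Ψ) = c.cl _ Θ := by
    rw [hΨ, c.cl_pull, Pool.Agent.Y129.swap_swap]
  have e2 := Half.trace_corr_corr (W := W) (N := Y) (M := X) (c.cl _ Ψ) (c.cl _ Γ)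
  have e3 := Half.trace_corr_corr (W := W) (N := X) (M := X) (c.cl _ (C.comp Γ Ψ))
    (c.cl _ (dg C X))
  rw [corr_cl_dg, corr_cl_comp] at e3
  have e4 : W.tr (X.prod X) (c.cl _ (C.comp Γ Ψ) * W.map (swap X X) (c.cl _ (dg C X))) = 0 := by
    rw [← c.cl_pull]
    exact h Ψ _
  rw [e4] at e3
  have e5 : W.tr (Y.prod X) (c.cl _ Ψ * W.map (swap Y X) (c.cl _ Γ)) = 0 := by
    rw [← e2]
    exact e3
  have e6 := tr_swap (W := W)
    (W.map (swap X Y) (c.cl _ Ψ) * c.cl _ Γ)
  rw [map_mul, Pool.Agent.Y129.swap_swap, e5, e1] at e6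
  rw [c.even]
  exact e6.symm

/-! ### The kernel of the evaluation at a numerically trivial element -/

/-- The span of the external products. -/
noncomputable def extSpan (C : TheoryData.{u, w, 0} 𝒱 ℚ) (X Y : 𝒱.Obj) :
    Submodule ℚ (C.A (X.prod Y)) :=
  Submodule.span ℚ {z | ∃ (a : C.A X) (b : C.A Y), z = C.ext a b}

lemma ext_mem (a : C.A X) (b : C.A Y) : C.ext a b ∈ extSpan C X Y :=
  Submodule.subset_span ⟨a, b, rfl⟩

lemma mem_of_decomposable {Γ : C.A (X.prod X)} (h : Decomposable c Γ) :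
    Γ ∈ extSpan C X X ⊔ numSub c (X.prod X) := by
  obtain ⟨n, a, b, h⟩ := h
  replace h : NumTrivial c (X.prod X) (Γ - ∑ i, C.ext (a i) (b i)) := h
  have h1 : Γ = (∑ i, C.ext (a i) (b i)) + (Γ - ∑ i, C.ext (a i) (b i)) := by abel
  rw [h1]
  exact Submodule.add_mem_sup (Submodule.sum_mem _ fun i _ => ext_mem _ _) h

lemma ext_sub_left (a a' : C.A X) (b : C.A Y) : C.ext (a - a') b = C.ext a b - C.ext a' b := by
  rw [TheoryData.ext, map_sub, sub_mul]; rfl

lemma ext_sum_smul_left {n : ℕ} (q : Fin n → ℚ) (a : Fin n → C.A X) (b : C.A Y) :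
    C.ext (∑ i, q i • a i) b = ∑ i, q i • C.ext (a i) b := by
  rw [TheoryData.ext, map_sum, Finset.sum_mul]
  apply Finset.sum_congr rfl
  intro i _
  rw [map_smul, smul_mul_assoc]; rfl

lemma ext_smul_right (q : ℚ) (a : C.A X) (b : C.A Y) : C.ext a (q • b) = q • C.ext a b := by
  rw [TheoryData.ext, map_smul, mul_smul_comm]; rfl

lemma ext_numSub_left {a : C.A X} (ha : a ∈ numSub c X) (b : C.A Y) :
    C.ext a b ∈ numSub c (X.prod Y) := by
  rw [TheoryData.ext]
  exact numSub_mul (numSub_pull _ ha) _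

lemma ext_numSub_right (a : C.A X) {b : C.A Y} (hb : b ∈ numSub c Y) :
    C.ext a b ∈ numSub c (X.prod Y) := by
  rw [TheoryData.ext]
  exact numSub_mul' (numSub_pull _ hb) _

/-- The families dual to each other for the intersection form modulo numerical equivalence. -/
lemma exists_dualF [Nontrivial (W.H X)] {D : C.A X →ₗ[ℚ] ℚ}
    (hD : ∀ x, W.tr X (c.cl X x) = (D x : W.K)) :
    ∃ z w : Fin (numRank W X) → C.A X, ∀ a, a - ∑ i, D (z i * a) • w i ∈ numSub c X := by
  have := finite_quot c (X := X)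
  have hmem : ∀ x, x ∈ numSub c X ↔ ∀ y, D (x * y) = 0 := by
    intro x
    rw [mem_numSub]
    apply forall_congr'
    intro y
    rw [← map_mul (c.cl X), hD]
    exact Rat.cast_eq_zero
  obtain ⟨z, w, h⟩ := exists_dual ((LinearMap.mul ℚ (C.A X)).compr₂ D) (numSub c X)
    (fun x => hmem x) (fun x hx y => by
      change D (y * x) = 0
      rw [chow_mul_comm]
      exact (hmem x).1 hx y)
  rw [numRank_eq c (X := X)]
  refine ⟨z, w, fun a => ?_⟩
  have h1 := h a
  have h2 : ∀ i, ((LinearMap.mul ℚ (C.A X)).compr₂ D) a (z i) = D (z i * a) := by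
    intro i
    change D (a * z i) = _
    rw [chow_mul_comm]
  simp only [h2] at h1
  exact h1

lemma no_minus {ν : Cor C X} (hn : IsNilpotent ν) {x : C.A X} (hx0 : x ≠ 0)
    (h2 : actC C X ν x = -x) : False := by
  obtain ⟨m, hm⟩ := hn
  have h3 : ∀ j : ℕ, ∃ q : ℚ, q ≠ 0 ∧ actC C X (ν ^ j) x = q • x := by
    intro j
    induction j with
    | zero => exact ⟨1, one_ne_zero, by rw [pow_zero, map_one, one_smul]; rfl⟩
    | succ j ih =>
      obtain ⟨q, hq, h4⟩ := ih
      refine ⟨-q, neg_ne_zero.2 hq, ?_⟩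
      rw [pow_succ, map_mul, Module.End.mul_apply, h2, map_neg, h4, neg_smul]
  obtain ⟨q, hq, h4⟩ := h3 m
  rw [hm, map_zero, LinearMap.zero_apply] at h4
  rcases smul_eq_zero.1 h4.symm with h5 | h5
  · exact hq h5
  · exact hx0 h5

/-- The correspondences killing a numerically trivial element. -/
theorem ker_le [Nontrivial (W.H X)] (hs : SimpleTranscendental c X)
    (hnil : ∀ f : Cor C X, (f : C.A (X.prod X)) ∈ numSub c (X.prod X) → IsNilpotent f)
    {x : C.A X} (hx : x ∈ numSub c X) (hx0 : x ≠ 0) {Γ : C.A (X.prod Y)}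
    (hΓ : C.act Γ x = 0) : Γ ∈ extSpan C X Y ⊔ numSub c (X.prod Y) := by
  obtain ⟨D, hD, hD'⟩ := exists_degF c (X := X)
  obtain ⟨z, w, hzw⟩ := exists_dualF c hD
  -- external products kill `x`
  have hext : ∀ s ∈ extSpan C X X, C.act s x = 0 := by
    intro s hs
    induction hs using Submodule.span_induction with
    | mem s hs =>
      obtain ⟨a, b, rfl⟩ := hs
      rw [act_ext' hD']
      have h1 : D (x * a) = 0 := by
        have h2 := hx a
        rw [← map_mul (c.cl X), hD] at h2
        exact_mod_cast h2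
      rw [h1, zero_smul]
    | zero => exact C.act_zero x
    | add x y _ _ hx hy => rw [C.act_add, hx, hy, add_zero]
    | smul r x _ hx =>
      rw [TheoryData.act_apply] at hx ⊢
      rw [smul_mul_assoc, map_smul, hx, smul_zero]
  -- all compositions are decomposable
  have hdec : ∀ Ψ : C.A (Y.prod X), C.comp Γ Ψ ∈ extSpan C X X ⊔ numSub c (X.prod X) := by
    intro Ψ
    rcases hs (C.comp Γ Ψ) with h1 | ⟨Δ, h1⟩
    · exact mem_of_decomposable c h1
    · exfalso
      replace h1 : Decomposable c (C.comp (C.comp Γ Ψ) Δ - C.graph (𝟙 X)) := h1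
      obtain ⟨s, hs, ν, hν, hsν⟩ := Submodule.mem_sup.1 (mem_of_decomposable c h1)
      have h2 : C.act ν x = -x := by
        have h3 := congrArg (fun t => C.act t x) hsν
        simp only [C.act_add, C.act_sub] at h3
        rw [hext s hs, zero_add, C.act_comp, C.act_comp, hΓ, C.act_map_zero, C.act_map_zero,
          zero_sub] at h3
        rw [h3]
        congr 1
        exact act_dg C x
      exact no_minus (ν := ν) (hnil ν hν) hx0 h2
  -- the decomposition of `Γ`
  set P : C.A (X.prod Y) := ∑ i, C.ext (w i) (C.act Γ (z i)) with hP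
  have hPm : P ∈ extSpan C X Y := Submodule.sum_mem _ fun i _ => ext_mem _ _
  suffices h : Γ - P ∈ numSub c (X.prod Y) by
    have h1 : Γ = P + (Γ - P) := by abel
    rw [h1]
    exact Submodule.add_mem_sup hPm h
  set p0 : C.A (X.prod X) := ∑ i, C.ext (w i) (z i) with hp0
  have hcomp : ∀ {V : 𝒱.Obj} (Θ : C.A (X.prod V)), C.comp p0 Θ =
      ∑ i, C.ext (w i) (C.act Θ (z i)) := by
    intro V Θ
    rw [hp0, sum_comp]
    apply Finset.sum_congr rfl
    intro i _
    exact comp_ext' _ _ _
  apply numSub_of_comp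
  intro Ψ
  have e1 : C.comp (Γ - P) Ψ = C.comp Γ Ψ - C.comp p0 (C.comp Γ Ψ) := by
    rw [sub_comp]
    congr 1
    rw [hcomp, hP, sum_comp]
    apply Finset.sum_congr rfl
    intro i _
    rw [comp_ext', C.act_comp]
  rw [e1]
  obtain ⟨s, hs, ν, hν, hsν⟩ := Submodule.mem_sup.1 (hdec Ψ)
  rw [← hsν, comp_add, add_sub_add_comm]
  refine Submodule.add_mem _ ?_ (Submodule.sub_mem _ hν (numSub_comp' _ hν))
  clear hsν
  induction hs using Submodule.span_induction with
  | mem s hs =>
    obtain ⟨a, b, rfl⟩ := hs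
    have e2 : C.ext a b - C.comp p0 (C.ext a b) =
        C.ext (a - ∑ i, D (z i * a) • w i) b := by
      rw [ext_sub_left, hcomp, ext_sum_smul_left]
      congr 1
      apply Finset.sum_congr rfl
      intro i _
      rw [act_ext' hD', ext_smul_right]
    rw [e2]
    exact ext_numSub_left c (hzw a) b
  | zero => rw [comp_zero, sub_zero]; exact Submodule.zero_mem _
  | add x y _ _ hx hy =>
    rw [comp_add, add_sub_add_comm]
    exact Submodule.add_mem _ hx hy
  | smul r x _ hx =>
    have e3 : C.comp p0 (r • x) = r • C.comp p0 x := by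
      rw [← compL_apply, map_smul, compL_apply]
    rw [e3, ← smul_sub]
    exact Submodule.smul_mem _ _ hx

/-! ### The inequality -/

/-- The span of the external products modulo numerical equivalence. -/
lemma finrank_extSpan_le [Nontrivial (W.H X)] [Nontrivial (W.H Y)] :
    Module.finrank ℚ ((extSpan C X Y).map (numSub c (X.prod Y)).mkQ) ≤
      numRank W X * numRank W Y := by
  obtain ⟨D, hD, -⟩ := exists_degF c (X := X)
  obtain ⟨z, w, hzw⟩ := exists_dualF c hD
  obtain ⟨D', hD', -⟩ := exists_degF c (X := Y)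
  obtain ⟨z', w', hzw'⟩ := exists_dualF c hD'
  set q := (numSub c (X.prod Y)).mkQ with hq
  have h0 : ∀ {s t : C.A (X.prod Y)}, s - t ∈ numSub c (X.prod Y) → q s = q t := by
    intro s t h
    rw [← sub_eq_zero, ← map_sub, hq, Submodule.mkQ_apply, Submodule.Quotient.mk_eq_zero]
    exact h
  have h1 : (extSpan C X Y).map q ≤ Submodule.span ℚ (Set.range
      fun ij : Fin (numRank W X) × Fin (numRank W Y) => q (C.ext (w ij.1) (w' ij.2))) := by
    rw [extSpan, Submodule.map_span_le]
    rintro _ ⟨a, b, rfl⟩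
    have h2 : q (C.ext a b) = ∑ i, D (z i * a) • q (C.ext (w i) b) := by
      rw [h0 (t := ∑ i, D (z i * a) • C.ext (w i) b) ?_, map_sum]
      · simp only [map_smul]
      · rw [← ext_sum_smul_left, ← ext_sub_left]
        exact ext_numSub_left c (hzw a) b
    rw [h2]
    apply Submodule.sum_mem
    intro i _
    apply Submodule.smul_mem
    have h3 : q (C.ext (w i) b) = ∑ j, D' (z' j * b) • q (C.ext (w i) (w' j)) := by
      rw [h0 (t := ∑ j, D' (z' j * b) • C.ext (w i) (w' j)) ?_, map_sum]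
      · simp only [map_smul]
      · have h4 : C.ext (w i) b - ∑ j, D' (z' j * b) • C.ext (w i) (w' j) =
            C.ext (w i) (b - ∑ j, D' (z' j * b) • w' j) := by
          simp only [TheoryData.ext, map_sub, mul_sub, map_sum, Finset.mul_sum, map_smul,
            mul_smul_comm]
        rw [h4]
        exact ext_numSub_right c _ (hzw' b)
    rw [h3]
    apply Submodule.sum_mem
    intro j _
    apply Submodule.smul_mem
    exact Submodule.subset_span ⟨(i, j), rfl⟩
  have hfs : Module.Finite ℚ (Submodule.span ℚ (Set.range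
      fun ij : Fin (numRank W X) × Fin (numRank W Y) => q (C.ext (w ij.1) (w' ij.2)))) :=
    FiniteDimensional.span_of_finite ℚ (Set.finite_range _)
  calc _ ≤ Module.finrank ℚ (Submodule.span ℚ (Set.range
      fun ij : Fin (numRank W X) × Fin (numRank W Y) => q (C.ext (w ij.1) (w' ij.2)))) :=
        Submodule.finrank_mono h1
    _ ≤ Fintype.card (Fin (numRank W X) × Fin (numRank W Y)) := finrank_range_le_card _
    _ = _ := by rw [Fintype.card_prod, Fintype.card_fin, Fintype.card_fin]

/-- **The inequality.** -/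
theorem numRank_le [Nontrivial (W.H X)] [Nontrivial (W.H Y)] [Nontrivial (W.H (X.prod Y))]
    (hs : SimpleTranscendental c X)
    (hnil : ∀ f : Cor C X, (f : C.A (X.prod X)) ∈ numSub c (X.prod X) → IsNilpotent f)
    {x : C.A X} (hx : x ∈ numSub c X) (hx0 : x ≠ 0) [Module.Finite ℚ (numSub c Y)] :
    numRank W (X.prod Y) ≤ numRank W X * numRank W Y + Module.finrank ℚ (numSub c Y) := by
  have hfin := finite_quot c (X := X.prod Y)
  rw [numRank_eq c (X := X.prod Y)]
  set R := numSub c (X.prod Y) with hR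
  set E := (extSpan C X Y).map R.mkQ with hE
  have h1 := Submodule.finrank_quotient_add_finrank E
  have h2 : Module.finrank ℚ E ≤ numRank W X * numRank W Y := finrank_extSpan_le c
  let ev : C.A (X.prod Y) →ₗ[ℚ] numSub c Y :=
    { toFun := fun Γ => ⟨C.act Γ x, numSub_act Γ hx⟩
      map_add' := fun Γ Δ => Subtype.ext (C.act_add Γ Δ x)
      map_smul' := fun q Γ => Subtype.ext (by
        change C.act (q • Γ) x = q • C.act Γ x
        rw [TheoryData.act_apply, TheoryData.act_apply, smul_mul_assoc, map_smul]) }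
  let g : C.A (X.prod Y) →ₗ[ℚ] ((C.A (X.prod Y) ⧸ R) ⧸ E) := E.mkQ ∘ₗ R.mkQ
  have hg : LinearMap.ker ev ≤ LinearMap.ker g := by
    intro Γ hΓ
    have h3 : C.act Γ x = 0 := congrArg Subtype.val (LinearMap.mem_ker.1 hΓ)
    obtain ⟨s, hs', ν, hν, rfl⟩ := Submodule.mem_sup.1 (ker_le c hs hnil hx hx0 h3)
    rw [LinearMap.mem_ker]
    change E.mkQ (R.mkQ (s + ν)) = 0
    have h4 : R.mkQ ν = 0 := (Submodule.Quotient.mk_eq_zero R).2 hν
    rw [map_add, h4, add_zero, Submodule.mkQ_apply, Submodule.Quotient.mk_eq_zero]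
    exact ⟨s, hs', rfl⟩
  have hfr : Module.Finite ℚ (C.A (X.prod Y) ⧸ LinearMap.ker ev) :=
    Module.Finite.equiv (LinearMap.quotKerEquivRange ev).symm
  have hsurj : Function.Surjective ((LinearMap.ker ev).liftQ g hg) := by
    intro t
    obtain ⟨t, rfl⟩ := E.mkQ_surjective t
    obtain ⟨t, rfl⟩ := R.mkQ_surjective t
    exact ⟨(LinearMap.ker ev).mkQ t, rfl⟩
  have h5 : Module.finrank ℚ ((C.A (X.prod Y) ⧸ R) ⧸ E) ≤ Module.finrank ℚ (numSub c Y) := by
    calc _ ≤ Module.finrank ℚ (C.A (X.prod Y) ⧸ LinearMap.ker ev) :=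
          LinearMap.finrank_le_finrank_of_surjective hsurj
      _ = Module.finrank ℚ (LinearMap.range ev) := (LinearMap.quotKerEquivRange ev).finrank_eq
      _ ≤ _ := Submodule.finrank_le _
  omega

end Pool.Agent.Y133.K3
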